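import Mathlib

namespace Pool.Agent.H.MP_e77664_al

open Matrix

variable {R : Type} [Ring R] {ι κ μ : Type}

def RkLe (A : Matrix ι κ R) (r : ℕ) : Prop :=
  ∃ (μ : Type) (_ : Fintype μ), Fintype.card μ ≤ r ∧
    ∃ (P : Matrix ι μ R) (Q : Matrix μ κ R), A = P * Q

def Full [Fintype ι] (A : Matrix ι ι R) : Prop := ∀ r, RkLe A r → Fintype.card ι ≤ r

def Syl (R : Type) [Ring R] : Prop :=
  ∀ (ι κ μ : Type) [Fintype ι] [Fintype κ] [Fintype μ] (X : Matrix ι κ R) (Y : Matrix κ μ R),
    X * Y = 0 → ∃ r s, r + s ≤ Fintype.card κ ∧ RkLe X r ∧ RkLe Y s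

lemma RkLe.mono {A : Matrix ι κ R} {r s : ℕ} (h : RkLe A r) (hs : r ≤ s) : RkLe A s := by
  obtain ⟨μ, _, h1, h2⟩ := h; exact ⟨μ, _, h1.trans hs, h2⟩

lemma RkLe.mul_left [Fintype ι] {A : Matrix ι κ R} {r : ℕ} (h : RkLe A r) (B : Matrix μ ι R) :
    RkLe (B * A) r := by
  obtain ⟨ν, _, h1, P, Q, rfl⟩ := h; exact ⟨ν, _, h1, B * P, Q, (Matrix.mul_assoc _ _ _).symm⟩

lemma RkLe.mul_right [Fintype κ] {A : Matrix ι κ R} {r : ℕ} (h : RkLe A r) (B : Matrix κ μ R) :
    RkLe (A * B) r := by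
  obtain ⟨ν, _, h1, P, Q, rfl⟩ := h; exact ⟨ν, _, h1, P, Q * B, Matrix.mul_assoc _ _ _⟩

lemma RkLe.sub {ι' κ' : Type} {A : Matrix ι κ R} {r : ℕ} (h : RkLe A r) (f : ι' → ι)
    (g : κ' → κ) : RkLe (A.submatrix f g) r := by
  obtain ⟨ν, _, h1, P, Q, rfl⟩ := h
  exact ⟨ν, _, h1, P.submatrix f id, Q.submatrix id g, rfl⟩

lemma RkLe.fac {A : Matrix ι κ R} {r : ℕ} (h : RkLe A r) (μ : Type) [Fintype μ]
    (hr : r ≤ Fintype.card μ) : ∃ (P : Matrix ι μ R) (Q : Matrix μ κ R), A = P * Q := by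
  classical
  obtain ⟨ν, _, h1, P, Q, rfl⟩ := h
  obtain ⟨e⟩ := Function.Embedding.nonempty_of_card_le (h1.trans hr)
  refine ⟨P * (1 : Matrix μ μ R).submatrix e id, (1 : Matrix μ μ R).submatrix id e * Q, ?_⟩
  rw [Matrix.mul_assoc, ← Matrix.mul_assoc _ _ Q, ← submatrix_mul _ _ _ _ _ Function.bijective_id,
    Matrix.mul_one, submatrix_one_embedding, Matrix.one_mul]

lemma RkLe.zero {A : Matrix ι κ R} (h : RkLe A 0) : A = 0 := by
  obtain ⟨P, Q, rfl⟩ := h.fac Empty le_rfl
  ext; simp [mul_apply]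

variable [Fintype ι] [Fintype κ]

lemma Full.equiv {A : Matrix ι ι R} (h : Full A) (e : κ ≃ ι) : Full (A.submatrix e e) :=
  fun r hr => by
    rw [Fintype.card_congr e]
    exact h r (by simpa using hr.sub e.symm e.symm)

lemma Full.left {P Q : Matrix ι ι R} (h : Full (P * Q)) : Full P :=
  fun r hr => h r (hr.mul_right Q)

lemma full_empty [IsEmpty ι] (A : Matrix ι ι R) : Full A := fun r _ => by simp

lemma Full.tri (hR : Syl R) {A : Matrix ι ι R} {D : Matrix κ κ R} (hA : Full A) (hD : Full D)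
    (C : Matrix κ ι R) : Full (fromBlocks A 0 C D) := by
  rintro r ⟨μ, _, h1, P, Q, e⟩
  rw [← fromRows_toRows P, ← fromCols_toCols Q, fromRows_mul_fromCols, fromBlocks_inj] at e
  obtain ⟨a, b, h2, h3, h4⟩ := hR _ _ _ _ _ e.2.1.symm
  have := hA _ (e.1 ▸ h3.mul_right _)
  have := hD _ (e.2.2.2 ▸ h4.mul_left _)
  simp; omega

section modules
variable {N : Type} [AddCommGroup N] [Module R N]

def act (A : Matrix ι κ R) (w : κ → N) : ι → N := fun i => ∑ j, A i j • w j

omit [Fintype ι] in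
lemma act_mul [Fintype μ] (A : Matrix ι κ R) (B : Matrix κ μ R) (w : μ → N) :
    act (A * B) w = act A (act B w) := by
  funext i
  simp only [act, mul_apply, Finset.sum_smul, Finset.smul_sum, mul_smul]
  exact Finset.sum_comm

omit [Fintype ι] in
lemma act_sub (A : Matrix ι κ R) (w w' : κ → N) : act A (w - w') = act A w - act A w' := by
  funext i; simp [act, smul_sub]

lemma Full.inj (hR : Syl R) {P : Matrix ι ι R} (h : Full P) {z : ι → R} (hz : act P z = 0) :
    z = 0 := by
  obtain ⟨a, b, h2, h3, h4⟩ := hR _ _ _ P (replicateCol Unit z) (by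
    ext i j; simpa [act, mul_apply] using congrFun hz i)
  have := h _ h3
  obtain rfl : b = 0 := by omega
  funext i
  simpa using congrFun (congrFun h4.zero i) ()

def Tor (hR : Syl R) (N : Type) [AddCommGroup N] [Module R N] : Submodule R N where
  carrier := {u | ∃ (ι : Type) (_ : Fintype ι) (B : Matrix ι ι R) (w : ι → N) (c : ι → R),
    Full B ∧ act B w = 0 ∧ u = ∑ j, c j • w j}
  add_mem' := by
    rintro _ _ ⟨ι, _, B, w, c, h1, h2, rfl⟩ ⟨ι', _, B', w', c', h1', h2', rfl⟩
    refine ⟨ι ⊕ ι', inferInstance, _, Sum.elim w w', Sum.elim c c', h1.tri hR h1' 0, ?_, by simp⟩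
    funext i
    rcases i with i | i
    · simpa [act] using congrFun h2 i
    · simpa [act] using congrFun h2' i
  zero_mem' := ⟨Empty, inferInstance, 0, 0, 0, full_empty _, Subsingleton.elim _ _, by simp⟩
  smul_mem' := by
    rintro r _ ⟨ι, _, B, w, c, h1, h2, rfl⟩
    exact ⟨ι, _, B, w, fun j => r * c j, h1, h2, by simp [Finset.smul_sum, mul_smul]⟩

lemma tor_fam (hR : Syl R) {y : κ → N} (h : ∀ i, y i ∈ Tor hR N) : ∃ (ι : Type) (_ : Fintype ι)
    (B : Matrix ι ι R) (w : ι → N) (C : Matrix κ ι R), Full B ∧ act B w = 0 ∧ y = act C w := by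
  classical
  have : ∀ s : Finset κ, ∃ (ι : Type) (_ : Fintype ι) (B : Matrix ι ι R) (w : ι → N),
      Full B ∧ act B w = 0 ∧ ∀ i ∈ s, ∃ c : ι → R, y i = ∑ j, c j • w j := fun s => by
    induction s using Finset.induction_on with
    | empty => exact ⟨Empty, inferInstance, 0, 0, full_empty _, Subsingleton.elim _ _, by simp⟩
    | insert a s _ ih =>
      obtain ⟨ι, _, B, w, h1, h2, h3⟩ := ih
      obtain ⟨ι', _, B', w', c', h1', h2', h3'⟩ := h a
      refine ⟨ι ⊕ ι', inferInstance, _, Sum.elim w w', h1.tri hR h1' 0, ?_, fun i hi => ?_⟩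
      · funext i
        rcases i with i | i
        · simpa [act] using congrFun h2 i
        · simpa [act] using congrFun h2' i
      · rcases Finset.mem_insert.1 hi with rfl | hi
        · exact ⟨Sum.elim 0 c', by simpa using h3'⟩
        · obtain ⟨c, hc⟩ := h3 i hi
          exact ⟨Sum.elim c 0, by simpa using hc⟩
  obtain ⟨ι, _, B, w, h1, h2, h3⟩ := this Finset.univ
  choose C hC using fun i => h3 i (Finset.mem_univ i)
  exact ⟨ι, _, B, w, C, h1, h2, funext hC⟩

lemma tor_closed (hR : Syl R) {A : Matrix κ κ R} (hA : Full A) {y : κ → N}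
    (h : ∀ i, act A y i ∈ Tor hR N) (i : κ) : y i ∈ Tor hR N := by
  classical
  obtain ⟨ι, _, B, w, C, h1, h2, h3⟩ := tor_fam hR h
  refine ⟨ι ⊕ κ, inferInstance, _, Sum.elim w y, Sum.elim 0 (Pi.single i 1), h1.tri hR hA (-C),
    ?_, by simp [Pi.single_apply]⟩
  funext i
  rcases i with i | i
  · simpa [act] using congrFun h2 i
  · simpa [act, neg_add_eq_zero] using (congrFun h3 i).symm

end modules

def Sys (R : Type) [Ring R] : Type :=
  Σ n : ℕ, {A : Matrix (Fin n) (Fin n) R // Full A} × (Fin n → R)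

abbrev Om (R : Type) [Ring R] : Type := Σ p : Sys R, Fin p.1

open Classical in
noncomputable def AA (R : Type) [Ring R] : Matrix (Om R) (Om R) R :=
  blockDiagonal' fun p : Sys R => p.2.1.1

noncomputable def row (x : Om R) : Om R →₀ R := ∑ j, Finsupp.single ⟨x.1, j⟩ (x.1.2.1.1 x.2 j)

lemma row_apply (x y : Om R) : row x y = AA R x y := by
  classical
  obtain ⟨p, i⟩ := x
  obtain ⟨q, j⟩ := y
  by_cases h : p = q
  · subst h
    simp [row, AA, Finsupp.single_apply]
  · simp [row, AA, h, blockDiagonal'_apply_ne _ _ _ h]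

lemma AA_ne {x y : Om R} (h : x.1 ≠ y.1) : AA R x y = 0 := by
  classical
  exact blockDiagonal'_apply_ne _ _ _ h

noncomputable def rel (R : Type) [Ring R] : (Om R →₀ R) →ₗ[R] R × (Om R →₀ R) :=
  Finsupp.linearCombination R fun x => (-x.1.2.2 x.2, row x)

lemma blk (hR : Syl R) (S : Finset (Sys R)) : ∃ (σ : Type) (_ : Fintype σ) (e : σ → Om R),
    Function.Injective e ∧ (∀ x : Om R, x.1 ∈ S ↔ ∃ i, e i = x) ∧
      Full ((AA R).submatrix e e) := by
  classical
  induction S using Finset.induction_on with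
  | empty => exact ⟨Empty, inferInstance, nofun, nofun, by simp, full_empty _⟩
  | insert a S ha ih =>
    obtain ⟨σ, _, e, h1, h2, h3⟩ := ih
    have hne : ∀ i, a ≠ (e i).1 := fun i h => ha (h ▸ (h2 _).2 ⟨i, rfl⟩)
    refine ⟨Fin a.1 ⊕ σ, inferInstance, Sum.elim (fun i => ⟨a, i⟩) e, ?_, fun x => ?_, ?_⟩
    · exact Function.Injective.sumElim (sigma_mk_injective (β := fun p : Sys R => Fin p.1)) h1 fun i j h => hne j (congrArg Sigma.fst h)
    · obtain ⟨p, i⟩ := x
      simp only [Finset.mem_insert, Sum.exists, Sum.elim_inl, Sum.elim_inr, ← h2]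
      refine or_congr_left ⟨?_, fun ⟨_, h⟩ => (congrArg Sigma.fst h).symm⟩
      rintro rfl; exact ⟨i, rfl⟩
    · convert a.2.1.2.tri hR h3 0
      ext (i | i) (j | j)
      · simp [AA]
      · exact AA_ne (x := ⟨a, i⟩) (hne j)
      · exact AA_ne (y := ⟨a, j⟩) (hne i).symm
      · rfl

lemma cover (hR : Syl R) (W : κ → Om R →₀ R) : ∃ (σ : Type) (_ : Fintype σ) (e : σ → Om R),
    Function.Injective e ∧ Full ((AA R).submatrix e e) ∧
      (∀ k, W k = ∑ i, W k (e i) • Finsupp.single (e i) 1) ∧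
      ∀ i, row (e i) = ∑ j, AA R (e i) (e j) • Finsupp.single (e j) 1 := by
  classical
  obtain ⟨σ, _, e, h1, h2, h3⟩ := blk hR (Finset.univ.biUnion fun k => (W k).support.image (·.1))
  have key : ∀ V : Om R →₀ R, (∀ x, V x ≠ 0 → ∃ i, e i = x) →
      V = ∑ i, V (e i) • Finsupp.single (e i) 1 := fun V hV => by
    ext x
    by_cases hx : ∃ i, e i = x
    · obtain ⟨i, rfl⟩ := hx
      simp [Finsupp.single_apply, h1.eq_iff]
    · rw [not_not.1 (mt (hV x) hx)]
      simp [not_exists.1 hx]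
  refine ⟨σ, _, e, h1, h3, fun k => key _ fun x hx => (h2 x).1 ?_, fun i => ?_⟩
  · simpa using ⟨k, x.2, hx⟩
  · simp only [← row_apply]
    refine key _ fun x hx => (h2 x).1 ?_
    have : (e i).1 = x.1 := by_contra fun h => hx (by
      rw [row_apply]; exact AA_ne h)
    exact this ▸ (h2 _).2 ⟨i, rfl⟩

theorem ex_mod (hR : Syl R) [Nontrivial R] : ∃ (N : Type) (_ : AddCommGroup N) (_ : Module R N),
    Nontrivial N ∧ ∀ (n : ℕ) (A : Matrix (Fin n) (Fin n) R), Full A →
      Function.Bijective (act (N := N) A) := by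
  classical
  let N' := (R × (Om R →₀ R)) ⧸ LinearMap.range (rel R)
  let q : R × (Om R →₀ R) →ₗ[R] N' := Submodule.mkQ _
  have hq : ∀ x : Om R, q (0, row x) = x.1.2.2 x.2 • q (1, 0) := fun x => by
    rw [← map_smul, ← sub_eq_zero, ← map_sub]
    exact (Submodule.Quotient.mk_eq_zero _).2 ⟨Finsupp.single x 1, by simp [rel]⟩
  let y : Om R → N' := fun x => q (0, Finsupp.single x 1)
  have hy : ∀ {σ : Type} [Fintype σ] (c : σ → R) (e : σ → Om R), ∑ i, c i • y (e i) =
      q (0, ∑ i, c i • Finsupp.single (e i) 1) := fun c e => by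
    simp only [y, ← map_smul, ← map_sum]
    congr 1
    ext <;> simp [Prod.fst_sum, Prod.snd_sum]
  have solve : ∀ (ι : Type) [Fintype ι] (A : Matrix ι ι R), Full A → ∀ v : ι → R,
      ∃ z : ι → N', ∀ i, act A z i = v i • q (1, 0) := fun ι _ A hA v => by
    let e := Fintype.equivFin ι
    let p : Sys R := ⟨_, ⟨_, hA.equiv e.symm⟩, v ∘ e.symm⟩
    refine ⟨fun j => y ⟨p, e j⟩, fun i => ?_⟩
    rw [act, hy]
    convert hq ⟨p, e i⟩
    · rw [row, ← e.sum_comp]; simp [p]
    · simp [p]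
  refine ⟨N' ⧸ Tor hR N', inferInstance, inferInstance, ⟨Submodule.Quotient.mk (q (1, 0)), 0, ?_⟩,
    fun n B hB => ⟨fun w w' h => ?_, fun w => ?_⟩⟩
  · rw [Ne, Submodule.Quotient.mk_eq_zero]
    rintro ⟨ι, _, B, w, c, h1, h2, h3⟩
    choose w' hw' using fun i => Submodule.mkQ_surjective _ (w i)
    let M : Matrix (ι ⊕ Unit) ι R := fromRows B (replicateRow Unit c)
    have : ∀ i, ∃ U, rel R U = ∑ j, M i j • w' j - (Sum.elim (fun _ => 0) (fun _ => 1) i, 0) := by
      rintro (i | i) <;> refine (Submodule.Quotient.mk_eq_zero _).1 (show q _ = 0 from ?_)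
      · simpa [M, q, hw', act, ← Prod.zero_eq_mk] using congrFun h2 i
      · rw [map_sub, map_sum]; simp only [map_smul, q, hw', M]; exact sub_eq_zero.2 h3.symm
    choose U hU using this
    obtain ⟨σ, _, e, e1, e2, e3, e4⟩ := cover hR (Sum.elim (fun j => (w' j).2) U)
    have hU' : ∀ i, rel R (U i) = ∑ x, U i (e x) • (-(e x).1.2.2 (e x).2, row (e x)) := fun i => by
      conv_lhs => rw [show U i = _ from e3 (.inr i)]
      simp [rel]
    obtain ⟨a, b, k1, k2, k3⟩ := hR _ _ _ (fromCols M (of fun i x => U i (e x)))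
      (fromRows (of fun j x => (w' j).2 (e x)) (-(AA R).submatrix e e)) (by
        rw [fromCols_mul_fromRows]
        ext i x
        have := congrArg (fun u => u.2 (e x)) ((hU' i).symm.trans (hU i))
        simp [Prod.snd_sum, row_apply] at this
        simp [mul_apply, this])
    have := e2 b (by
      convert (k3.sub Sum.inr id).mul_left (-1 : Matrix σ σ R); ext; simp)
    obtain ⟨P, Q, k4⟩ := k2.fac ι (by simp at k1; omega)
    have k5 : act (fromCols M (of fun i x => U i (e x)))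
        (Sum.elim (fun j => (w' j).1) fun x => (e x).1.2.2 (e x).2) =
        Sum.elim (fun _ => 0) (fun _ => (1 : R)) := by
      funext i
      have := congrArg Prod.fst ((hU' i).symm.trans (hU i))
      simp [Prod.fst_sum] at this
      simp [act, eq_sub_iff_add_eq.1 this |>.symm]
    rw [k4, act_mul] at k5
    have k6 : Full (P.submatrix Sum.inl id * Q.submatrix id Sum.inl) := by
      convert h1; ext i j; exact (congrFun (congrFun k4 (.inl i)) (.inl j)).symm
    have k7 := congrFun k5 (.inr ())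
    rw [k6.left.inj hR (funext fun i => congrFun k5 (.inl i))] at k7
    simp [act] at k7
  · choose z hz using fun i => Submodule.mkQ_surjective _ ((w - w') i)
    refine sub_eq_zero.1 (funext fun i => ?_)
    rw [← hz]
    refine (Submodule.Quotient.mk_eq_zero _).2 (tor_closed hR hB (fun i => ?_) i)
    refine (Submodule.Quotient.mk_eq_zero _).1 (show (Tor hR N').mkQ _ = 0 from ?_)
    have := congrFun (act_sub B w w') i
    rw [h, sub_self] at this
    simpa [act, hz] using this
  · choose w1 hw1 using fun i => Submodule.mkQ_surjective _ (w i)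
    choose w' hw' using fun i => Submodule.mkQ_surjective _ (w1 i)
    obtain ⟨σ, _, e, e1, e2, e3, e4⟩ := cover hR fun j => (w' j).2
    obtain ⟨z, hz⟩ := solve _ _ (e2.tri hR hB (of fun j x => -(w' j).2 (e x)))
      (Sum.elim (fun x => (e x).1.2.2 (e x).2) fun j => (w' j).1)
    have h1 : ∀ x, (Tor hR N').mkQ (z (.inl x)) = (Tor hR N').mkQ (y (e x)) := fun x => by
      refine (Submodule.Quotient.eq _).2 (tor_closed hR e2
        (y := (fun x => z (.inl x)) - fun x => y (e x)) (fun x => ?_) x)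
      have := hz (.inl x)
      simp [act] at this
      simp only [act, Pi.sub_apply, smul_sub, Finset.sum_sub_distrib, submatrix_apply, this, hy,
        ← e4, hq, sub_self, zero_mem]
    refine ⟨fun j => (Tor hR N').mkQ (z (.inr j)), funext fun j => ?_⟩
    have := congrArg (Tor hR N').mkQ (hz (.inr j))
    simp only [act, Fintype.sum_sum_type, map_add, map_sum, map_smul, h1,
      fromBlocks_apply₂₂] at this
    simp only [← map_smul, ← map_sum] at this
    simp only [act, ← map_smul, ← map_sum]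
    rw [← hw1, ← hw', eq_sub_of_add_eq' this, ← map_sub]
    congr 1
    simp only [fromBlocks_apply₂₁, of_apply, neg_smul, Finset.sum_neg_distrib, hy, ← e3,
      Sum.elim_inr, sub_neg_eq_add, ← map_add]
    congr 1
    simp

end Pool.Agent.H.MP_e77664_al
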