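import Mathlib
import Pool.Agent.H.MP_e77664_al.A

namespace Pool.Agent.H.MP_e77664_al

open Matrix

def FM (R : Type) [Ring R] : Type := Σ n : ℕ, {A : Matrix (Fin n) (Fin n) R // Full A}

abbrev Gen (R : Type) [Ring R] : Type := R ⊕ Σ p : FM R, Fin p.1 × Fin p.1

variable {R : Type} [Ring R]

def cc (a : R) : FreeRing (Gen R) := FreeRing.of (.inl a)

def vv (p : FM R) : Matrix (Fin p.1) (Fin p.1) (FreeRing (Gen R)) :=
  fun i j => FreeRing.of (.inr ⟨p, (i, j)⟩)

inductive Rl (R : Type) [Ring R] : FreeRing (Gen R) → FreeRing (Gen R) → Prop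
  | add (a b : R) : Rl R (cc (a + b)) (cc a + cc b)
  | mul (a b : R) : Rl R (cc (a * b)) (cc a * cc b)
  | one : Rl R (cc 1) 1
  | l (p : FM R) (i j : Fin p.1) : Rl R ((p.2.1.map cc * vv p) i j) ((1 : Matrix _ _ _) i j)
  | r (p : FM R) (i j : Fin p.1) : Rl R ((vv p * p.2.1.map cc) i j) ((1 : Matrix _ _ _) i j)

noncomputable def ff (R : Type) [Ring R] : R →+* RingQuot (Rl R) :=
  RingHom.mk'
    { toFun := fun a => RingQuot.mkRingHom _ (cc a)
      map_one' := (RingQuot.mkRingHom_rel Rl.one).trans (map_one _)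
      map_mul' := fun a b => (RingQuot.mkRingHom_rel (Rl.mul a b)).trans (map_mul _ _ _) }
    fun a b => (RingQuot.mkRingHom_rel (Rl.add a b)).trans (map_add _ _ _)

lemma ff_l (p : FM R) : p.2.1.map (ff R) * (vv p).map (RingQuot.mkRingHom (Rl R)) = 1 := by
  ext i j
  have := RingQuot.mkRingHom_rel (Rl.l p i j)
  simp only [mul_apply, map_sum, map_mul, one_apply, apply_ite, map_one, map_zero] at this ⊢
  exact this

lemma ff_r (p : FM R) : (vv p).map (RingQuot.mkRingHom (Rl R)) * p.2.1.map (ff R) = 1 := by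
  ext i j
  have := RingQuot.mkRingHom_rel (Rl.r p i j)
  simp only [mul_apply, map_sum, map_mul, one_apply, apply_ite, map_one, map_zero] at this ⊢
  exact this

def Inv {S : Type} [Ring S] (g : R →+* S) : Prop :=
  ∀ (n : ℕ) (A : Matrix (Fin n) (Fin n) R), Full A → IsUnit (A.map g)

lemma ff_inv : Inv (ff R) := fun n A h => ⟨⟨_, _, ff_l ⟨n, A, h⟩, ff_r ⟨n, A, h⟩⟩, rfl⟩

lemma ff_lift {S : Type} [Ring S] {g : R →+* S} (h : Inv g) :
    ∃ g' : RingQuot (Rl R) →+* S, ∀ r, g' (ff R r) = g r := by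
  let φ : FreeRing (Gen R) →+* S := FreeRing.lift (Sum.elim g fun x =>
    ((h x.1.1 x.1.2.1 x.1.2.2).unit⁻¹).1 x.2.1 x.2.2)
  have h1 : ∀ a, φ (cc a) = g a := fun a => FreeRing.lift_of _ _
  have h2 : ∀ p i j, φ (vv p i j) = ((h p.1 p.2.1 p.2.2).unit⁻¹).1 i j :=
    fun p i j => FreeRing.lift_of _ _
  refine ⟨RingQuot.lift ⟨φ, fun x y hxy => ?_⟩, fun r =>
    (RingQuot.lift_mkRingHom_apply _ _ _).trans (h1 r)⟩
  cases hxy with
  | add a b => simp [h1]
  | mul a b => simp [h1]
  | one => simp [h1]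
  | l p i j =>
    have := congrFun (congrFun (h p.1 p.2.1 p.2.2).mul_val_inv i) j
    simp only [mul_apply, map_sum, map_mul, one_apply, apply_ite, map_one, map_zero, map_apply,
      h1, h2] at this ⊢
    exact this
  | r p i j =>
    have := congrFun (congrFun (h p.1 p.2.1 p.2.2).val_inv_mul i) j
    simp only [mul_apply, map_sum, map_mul, one_apply, apply_ite, map_one, map_zero, map_apply,
      h1, h2] at this ⊢
    exact this

lemma Inv.left {S : Type} [Ring S] {g : R →+* S} (h : Inv g) {ι : Type} [Fintype ι]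
    [DecidableEq ι] {A : Matrix ι ι R} (hA : Full A) : ∃ A' : Matrix ι ι S, A' * A.map g = 1 := by
  let e := Fintype.equivFin ι
  obtain ⟨A', h⟩ := (h _ _ (hA.equiv e.symm)).exists_left_inv
  refine ⟨A'.submatrix e e, ?_⟩
  have := congrArg (fun M => M.submatrix e e) h
  simp only [submatrix_one_equiv] at this
  rw [← this, submatrix_mul _ _ _ e _ e.bijective]
  simp [submatrix_map]

lemma Inv.inj {S : Type} [Ring S] {g : R →+* S} (h : Inv g) {ι : Type} [Fintype ι]
    {A : Matrix ι ι R} (hA : Full A) {z : ι → S} (hz : A.map g *ᵥ z = 0) : z = 0 := by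
  classical
  obtain ⟨A', h⟩ := h.left hA
  rw [← one_mulVec z, ← h, ← mulVec_mulVec, hz, mulVec_zero]

lemma ff_rat (hR : Syl R) (u : RingQuot (Rl R)) : ∃ (ι : Type) (_ : Fintype ι)
    (A : Matrix ι ι R) (a b : ι → R) (c : R) (x : ι → RingQuot (Rl R)), Full A ∧
      A.map (ff R) *ᵥ x = ff R ∘ b ∧ u = ff R c + (ff R ∘ a) ⬝ᵥ x := by
  obtain ⟨u, rfl⟩ := RingQuot.mkRingHom_surjective _ u
  have h0 : ∀ c : R, ∃ (ι : Type) (_ : Fintype ι)
      (A : Matrix ι ι R) (a b : ι → R) (c' : R) (x : ι → RingQuot (Rl R)), Full A ∧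
        A.map (ff R) *ᵥ x = ff R ∘ b ∧ ff R c = ff R c' + (ff R ∘ a) ⬝ᵥ x := fun c =>
    ⟨Empty, inferInstance, 0, 0, 0, c, 0, full_empty _, Subsingleton.elim _ _, by simp⟩
  induction u using FreeRing.induction_on with
  | hn1 => simpa using h0 (-1)
  | hb b =>
    rcases b with b | ⟨p, i, j⟩
    · exact h0 b
    · refine ⟨Fin p.1, inferInstance, p.2.1, Pi.single i 1, Pi.single j 1, 0,
        fun k => RingQuot.mkRingHom _ (vv p k j), p.2.2, funext fun k => ?_, ?_⟩
      · have := congrFun (congrFun (ff_l p) k) j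
        simpa [mul_apply, mulVec, dotProduct, one_apply, Pi.single_apply, apply_ite] using this
      · simp [dotProduct, Pi.single_apply, apply_ite, ite_mul, vv]
  | ha u v hu hv =>
    obtain ⟨ι, _, A, a, b, c, x, h1, h2, h3⟩ := hu
    obtain ⟨ι', _, A', a', b', c', x', h1', h2', h3'⟩ := hv
    refine ⟨ι ⊕ ι', inferInstance, _, Sum.elim a a', Sum.elim b b', c + c', Sum.elim x x',
      h1.tri hR h1' 0, ?_, ?_⟩
    · rw [fromBlocks_map, fromBlocks_mulVec]; simp [h2, h2', Sum.comp_elim]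
    · rw [map_add, h3, h3', Sum.comp_elim, sumElim_dotProduct_sumElim, map_add]; abel
  | hm u v hu hv =>
    obtain ⟨ι, _, A, a, b, c, x, h1, h2, h3⟩ := hu
    obtain ⟨ι', _, A', a', b', c', x', h1', h2', h3'⟩ := hv
    refine ⟨ι' ⊕ ι, inferInstance, _, Sum.elim (fun j => c * a' j) a,
      Sum.elim b' fun i => b i * c', c * c', Sum.elim x' fun i => x i * RingQuot.mkRingHom _ v,
      h1'.tri hR h1 (of fun i j => -(b i * a' j)), ?_, ?_⟩
    · funext i
      rcases i with i | i
      · simpa [mulVec, dotProduct] using congrFun h2' i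
      · have := congrFun h2 i
        simp only [mulVec, dotProduct, map_apply, Function.comp] at this
        simp only [mulVec, dotProduct, Fintype.sum_sum_type, map_apply, fromBlocks_apply₂₁,
          fromBlocks_apply₂₂, Sum.elim_inl, Sum.elim_inr, Function.comp, ← mul_assoc,
          ← Finset.sum_mul, this, of_apply, map_neg, map_mul]
        simp [h3', dotProduct, mul_add, Finset.mul_sum, mul_assoc]
    · rw [map_mul, h3, add_mul]
      simp only [dotProduct, Fintype.sum_sum_type, Sum.elim_inl, Sum.elim_inr, Function.comp,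
        Finset.sum_mul, mul_assoc, map_mul, ← add_assoc]
      congr 1
      simp [h3', dotProduct, mul_add, Finset.mul_sum]

theorem univ (hR : Syl R) [Nontrivial R] : ∃ (L : Type) (_ : DivisionRing L) (f : R →+* L),
    Inv f ∧ (∀ (S : Type) [Ring S] (g : R →+* S), Inv g → ∃ g' : L →+* S, ∀ r, g' (f r) = g r) ∧
      ∀ (S : Type) [Ring S] (g g' : L →+* S), (∀ r, g (f r) = g' (f r)) → g = g' := by
  classical
  obtain ⟨N, _, _, _, hN⟩ := ex_mod hR
  obtain ⟨g, -⟩ := ff_lift (R := R) (g := Module.toModuleEnd ℤ N) fun n A hA => by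
    rw [← MulEquiv.isUnit_map (endVecRingEquivMatrixEnd (Fin n) ℤ N).symm, Module.End.isUnit_iff]
    exact hN n A hA
  have : Nontrivial (RingQuot (Rl R)) := g.domain_nontrivial
  have hl : ∀ u : RingQuot (Rl R), u ≠ 0 → ∃ v, v * u = 1 := fun u hu => by
    obtain ⟨ι, _, A, a, b, c, x, h1, h2, h3⟩ := ff_rat hR u
    let M : Matrix (ι ⊕ Unit) (ι ⊕ Unit) R :=
      fromBlocks A (replicateCol Unit (-b)) (replicateRow Unit a) (of fun _ _ => c)
    have hM : M.map (ff R) *ᵥ Sum.elim x (fun _ => 1) = Sum.elim (fun _ => 0) fun _ => u := by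
      funext i
      rcases i with i | i
      · simpa [M, mulVec, dotProduct, add_neg_eq_zero] using congrFun h2 i
      · simp [M, mulVec, dotProduct, h3, add_comm]
    by_cases hF : Full M
    · obtain ⟨M', h⟩ := ff_inv.left hF
      have := congrArg (fun v => (M' *ᵥ v) (.inr ())) hM
      simp only [mulVec_mulVec, h, one_mulVec] at this
      exact ⟨M' (.inr ()) (.inr ()), by simpa [mulVec, dotProduct] using this.symm⟩
    · obtain ⟨r, hr⟩ := not_forall.1 hF
      obtain ⟨P, Q, e⟩ := (Classical.not_imp.1 hr).1.fac ι (by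
        have := (Classical.not_imp.1 hr).2; simp at this; omega)
      rw [e, Matrix.map_mul, ← mulVec_mulVec] at hM
      have k6 : Full (P.submatrix Sum.inl id * Q.submatrix id Sum.inl) := by
        convert h1; ext i j; exact (congrFun (congrFun e (.inl i)) (.inl j)).symm
      have k7 := congrFun hM (.inr ())
      rw [ff_inv.inj k6.left (funext fun i => congrFun hM (.inl i))] at k7
      exact absurd (by simpa using k7.symm) hu
  refine ⟨RingQuot (Rl R), DivisionRing.ofIsUnitOrEqZero fun u => ?_, ff R, ff_inv,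
    fun S _ g hg => ff_lift hg, fun S _ g g' h => RingHom.ext fun u => ?_⟩
  · refine or_iff_not_imp_right.2 fun hu => ?_
    obtain ⟨v, hv⟩ := hl u hu
    obtain ⟨w, hw⟩ := hl v (left_ne_zero_of_mul_eq_one hv)
    obtain rfl := left_inv_eq_right_inv hw hv
    exact ⟨⟨w, v, hw, hv⟩, rfl⟩
  · obtain ⟨ι, _, A, a, b, c, x, h1, h2, rfl⟩ := ff_rat hR u
    have : Inv (g.comp (ff R)) := fun n A hA => by
      simpa using (ff_inv n A hA).map g.mapMatrix
    have h3 := this.inj h1 (z := g ∘ x - g' ∘ x) (funext fun i => by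
      have a1 := congrArg g (congrFun h2 i)
      have a2 := congrArg g' (congrFun h2 i)
      simp only [mulVec, dotProduct, map_sum, map_mul, map_apply, Function.comp, ← h] at a1 a2
      simp [mulVec, dotProduct, mul_sub, a1, a2])
    have h4 : ∀ i, g (x i) = g' (x i) := fun i => sub_eq_zero.1 (congrFun h3 i)
    simp [dotProduct, h, h4]

end Pool.Agent.H.MP_e77664_al
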