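import Mathlib
import Pool.Agent.H.MP_e77664_al.A

namespace Pool.Agent.H.MP_e77664_al

open Matrix

section weak
variable {G K α : Type} [Ring G] [DivisionRing K] (d : α → G →+ G)

def lt : ℕ → AddSubgroup G
  | 0 => ⊥
  | p + 1 => ⨅ a, (lt p).comap (d a)

def th : List α → G →+ G
  | [] => AddMonoidHom.id G
  | a :: l => (th l).comp (d a)

variable {d}

lemma lt_succ {p : ℕ} {g : G} : g ∈ lt d (p + 1) ↔ ∀ a, d a g ∈ lt d p := by simp [lt]

lemma lt_zero {g : G} : g ∈ lt d 0 ↔ g = 0 := by simp [lt]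

lemma lt_mono {p q : ℕ} {g : G} (h : g ∈ lt d p) (hq : p ≤ q) : g ∈ lt d q := by
  have : ∀ p (g : G), g ∈ lt d p → g ∈ lt d (p + 1) := fun p => by
    induction p with
    | zero => intro g h; rw [lt_zero.1 h]; exact zero_mem _
    | succ p ih => exact fun g h => lt_succ.2 fun a => ih _ (lt_succ.1 h a)
  induction hq with
  | refl => exact h
  | step _ ih => exact this _ _ ih

lemma th_lt (l : List α) {p : ℕ} : ∀ {g : G}, g ∈ lt d (p + l.length) → th d l g ∈ lt d p := by
  induction l with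
  | nil => exact id
  | cons a l ih => exact fun h => ih (lt_succ.1 h a)

structure WA (d : α → G →+ G) (ι : K →+* G) (n : α → G) : Prop where
  h1 : ∀ a g, d a (g * n a) = g
  h1' : ∀ a b g, a ≠ b → d a (g * n b) = 0
  h2 : ∀ a c, d a (ι c) = 0
  h3 : ∀ g, ∃ (c : K) (s : Finset α), g = ι c + ∑ a ∈ s, d a g * n a
  h4 : ∀ a b c, ∃ c', d a (n b * ι c) = ι c'
  h5 : ∀ g, ∃ p, g ∈ lt d p

variable {ι : K →+* G} {n : α → G} (h : WA d ι n)
include h

lemma WA.mul (y : G) : ∃ c, ∀ a x, d a (x * y) = x * d a y + d a (x * ι c) := by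
  classical
  obtain ⟨c, s, e⟩ := h.h3 y
  have : ∀ a x, d a (x * y) = (if a ∈ s then x * d a y else 0) + d a (x * ι c) := fun a x => by
    conv_lhs => rw [e, mul_add, map_add, Finset.mul_sum, map_sum, add_comm]
    rw [← Finset.sum_ite_eq s a fun _ => x * d a y]
    congr 1
    refine Finset.sum_congr rfl fun b _ => ?_
    rw [← mul_assoc]
    split_ifs with hb
    · rw [← hb, h.h1]
    · exact h.h1' _ _ _ hb
  refine ⟨c, fun a x => ?_⟩
  rw [this]
  split_ifs with ha
  · rfl
  · have := this a 1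
    simp only [one_mul, ha, if_false, h.h2, add_zero] at this
    rw [this, mul_zero]

lemma WA.rK (p : ℕ) : ∀ (g : G) (c : K), g ∈ lt d p → g * ι c ∈ lt d p := by
  induction p with
  | zero => intro g c hg; rw [lt_zero.1 hg, zero_mul]; exact zero_mem _
  | succ p ih =>
    intro g c hg
    obtain ⟨c0, s, e⟩ := h.h3 g
    refine lt_succ.2 fun a => ?_
    rw [e, add_mul, ← map_mul, map_add, h.h2, zero_add, Finset.sum_mul, map_sum]
    refine sum_mem fun b _ => ?_
    obtain ⟨c1, e1⟩ := h.mul (n b * ι c)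
    obtain ⟨c2, e2⟩ := h.h4 a b c
    rw [mul_assoc, e1, e2]
    exact add_mem (ih _ _ (lt_succ.1 hg b))
      (lt_succ.1 (lt_mono (ih _ _ (lt_succ.1 hg b)) (Nat.le_succ p)) a)

lemma WA.th_mul {p : ℕ} {x : G} (hx : x ∈ lt d (p + 1)) (l : List α) :
    ∀ y, th d l (x * y) - x * th d l y ∈ lt d p := by
  induction l with
  | nil => simp [th]
  | cons a l ih =>
    intro y
    obtain ⟨c, e⟩ := h.mul y
    have := add_mem (ih (d a y)) (th_lt l (lt_mono (lt_succ.1 (h.rK _ _ c hx) a) le_self_add))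
    convert this using 1
    simp only [th, AddMonoidHom.comp_apply, e, map_add]
    abel

lemma WA.mul_lt {p : ℕ} {x : G} (hx : x ∈ lt d (p + 1)) (q : ℕ) :
    ∀ y ∈ lt d q, x * y ∈ lt d (p + q) := by
  induction q with
  | zero => intro y hy; rw [lt_zero.1 hy, mul_zero]; exact zero_mem _
  | succ q ih =>
    intro y hy
    obtain ⟨c, e⟩ := h.mul y
    refine lt_succ.2 fun a => ?_
    rw [e]
    exact add_mem (ih _ (lt_succ.1 hy a)) (lt_mono (lt_succ.1 (h.rK _ _ c hx) a) le_self_add)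

lemma WA.top (r : ℕ) : ∀ y ∈ lt d (r + 1), y ∉ lt d r →
    ∃ (l : List α) (m : K), l.length = r ∧ m ≠ 0 ∧ th d l y = ι m := by
  induction r with
  | zero =>
    intro y h1 h2
    obtain ⟨c, s, e⟩ := h.h3 y
    simp only [fun a => lt_zero.1 (lt_succ.1 h1 a), zero_mul, Finset.sum_const_zero, add_zero] at e
    exact ⟨[], c, rfl, fun hc => h2 (by rw [e, hc, map_zero]; exact zero_mem _), e⟩
  | succ r ih =>
    intro y h1 h2
    obtain ⟨a, ha⟩ := not_forall.1 (mt lt_succ.2 h2)
    obtain ⟨l, m, e1, e2, e3⟩ := ih _ (lt_succ.1 h1 a) ha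
    exact ⟨a :: l, m, by simp [e1], e2, e3⟩

lemma WA.step {σ κ : Type} [Fintype κ] (X : Matrix σ κ G) (y : κ → G) (hy : X *ᵥ y = 0)
    (sz : κ → ℕ) (hsz : ∀ i k, X i k ∈ lt d (sz k)) (hk : ∃ k, sz k ≠ 0 ∧ y k ≠ 0) :
    ∃ (k : κ) (p : ℕ) (c : κ → G), sz k = p + 1 ∧ c k = 1 ∧ ∀ i, (X *ᵥ c) i ∈ lt d p := by
  classical
  let dy : κ → ℕ := fun k => Nat.find (h.h5 (y k))
  obtain ⟨k, hk, hmax⟩ := (Finset.univ.filter fun k => sz k ≠ 0 ∧ y k ≠ 0).exists_max_image
    (fun k => toLex (sz k + dy k, sz k)) (by simpa [Finset.Nonempty] using hk)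
  simp only [Finset.mem_filter, Finset.mem_univ, true_and, Prod.Lex.toLex_le_toLex] at hk hmax
  obtain ⟨p, hp⟩ := Nat.exists_eq_succ_of_ne_zero hk.1
  have h1 : ∀ k, y k ∈ lt d (dy k) := fun k => Nat.find_spec (h.h5 (y k))
  obtain ⟨r, hr⟩ : ∃ r, dy k = r + 1 :=
    Nat.exists_eq_succ_of_ne_zero fun h0 => hk.2 (lt_zero.1 (h0 ▸ h1 k))
  obtain ⟨l, m, e1, e2, e3⟩ := h.top r _ (hr ▸ h1 k)
    (Nat.find_min (h.h5 (y k)) (by simp only [dy] at hr; omega))
  let c : κ → G := fun j => if sz j ≤ p + 1 then th d l (y j) else 0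
  refine ⟨k, p, fun j => c j * ι m⁻¹, hp, by
    simp only [c]; rw [if_pos hp.le, e3, ← map_mul, mul_inv_cancel₀ e2, map_one], fun i => ?_⟩
  have h2 : ∀ j, th d l (X i j * y j) - X i j * c j ∈ lt d p := fun j => by
    simp only [c]
    split_ifs with hj
    · exact h.th_mul (lt_mono (hsz i j) hj) l _
    by_cases h0 : y j = 0
    · simp [h0]
    have := hmax j ⟨by omega, h0⟩
    rw [mul_zero, sub_zero]
    exact th_lt l (lt_mono (h.mul_lt (p := sz j - 1) (lt_mono (hsz i j) (by omega)) _ _ (h1 j))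
      (by omega))
  have h3 := neg_mem (sum_mem fun j (_ : j ∈ Finset.univ) => h2 j)
  rw [Finset.sum_sub_distrib, ← map_sum, show ∑ j, X i j * y j = 0 from congrFun hy i, map_zero,
    zero_sub, neg_neg] at h3
  simpa [mulVec, dotProduct, Finset.sum_mul, mul_assoc] using h.rK _ _ m⁻¹ h3

theorem WA.syl : Syl G := by
  classical
  intro σ κ μ _ _ _ X Y hXY
  obtain ⟨sz, hsz⟩ : ∃ sz : κ → ℕ, ∀ i k, X i k ∈ lt d (sz k) := by
    choose f hf using fun i k => h.h5 (X i k)
    exact ⟨fun k => Finset.univ.sup fun i => f i k, fun i k =>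
      lt_mono (hf i k) (Finset.le_sup (f := fun i => f i k) (Finset.mem_univ i))⟩
  induction hm : ∑ k, sz k using Nat.strong_induction_on generalizing X Y sz with
  | _ m ih =>
  by_cases hk : ∃ j k, sz k ≠ 0 ∧ Y k j ≠ 0
  · obtain ⟨j, hk⟩ := hk
    obtain ⟨k, p, c, h1, h2, h3⟩ := h.step X (fun k => Y k j)
      (funext fun i => congrFun (congrFun hXY i) j) sz hsz hk
    let E : Matrix κ κ G := of fun a b => if b = k then (if a = k then 0 else c a) else 0
    have hE : E * E = 0 := by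
      ext a b
      simp only [E, mul_apply, of_apply, Matrix.zero_apply]
      exact Finset.sum_eq_zero fun x _ => by split_ifs <;> simp
    have e1 : (1 + E) * (1 - E) = 1 := by rw [add_mul, mul_sub, mul_sub, hE]; simp
    obtain ⟨r, s, a1, a2, a3⟩ := ih _ (by
      rw [← hm]
      exact Finset.sum_lt_sum (fun x _ => by
        rw [Function.update_apply]; split_ifs with hx <;> simp [*])
        ⟨k, Finset.mem_univ _, by simp [h1]⟩) (X * (1 + E)) ((1 - E) * Y)
      (by rw [Matrix.mul_assoc, ← Matrix.mul_assoc (1 + E), e1, Matrix.one_mul, hXY])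
      (Function.update sz k p) (fun i b => by
        rw [Function.update_apply, Matrix.mul_add, Matrix.mul_one, Matrix.add_apply]
        split_ifs with hb
        · convert h3 i
          simp only [E, mul_apply, of_apply, hb, if_true, mulVec, dotProduct]
          rw [← Finset.add_sum_erase _ _ (Finset.mem_univ k),
            ← Finset.add_sum_erase _ _ (Finset.mem_univ k), if_pos rfl, h2, mul_zero, zero_add,
            mul_one]
          congr 1
          exact Finset.sum_congr rfl fun x hx => by rw [if_neg (Finset.ne_of_mem_erase hx)]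
        · simpa [E, mul_apply, hb] using hsz i b) rfl
    refine ⟨r, s, a1, ?_, ?_⟩
    · have := a2.mul_right (1 - E)
      rwa [Matrix.mul_assoc, e1, Matrix.mul_one] at this
    · have := a3.mul_left (1 + E)
      rwa [← Matrix.mul_assoc, e1, Matrix.one_mul] at this
  · push Not at hk
    refine ⟨Fintype.card {k // sz k ≠ 0}, Fintype.card {k // ¬ sz k ≠ 0}, by
      rw [← Fintype.card_sum, Fintype.card_congr (Equiv.sumCompl _)],
      ⟨_, _, le_rfl, of fun i x => X i x.1, of fun x k => if x.1 = k then 1 else 0, ?_⟩,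
      ⟨_, _, le_rfl, of fun k x => if x.1 = k then 1 else 0, of fun x j => Y x.1 j, ?_⟩⟩
    · ext i k
      simp only [mul_apply, of_apply, mul_ite, mul_one, mul_zero]
      by_cases h0 : sz k = 0
      · rw [lt_zero.1 (show X i k ∈ lt d 0 from h0 ▸ hsz i k)]
        exact (Finset.sum_eq_zero fun x _ => if_neg fun e => x.2 (e ▸ h0)).symm
      · rw [Finset.sum_eq_single ⟨k, h0⟩ (fun x _ hx => if_neg fun e => hx (Subtype.ext e))
          (by simp), if_pos rfl]
    · ext k j
      simp only [mul_apply, of_apply, ite_mul, one_mul, zero_mul]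
      by_cases h0 : sz k ≠ 0
      · rw [hk j k h0]
        exact (Finset.sum_eq_zero fun x _ => if_neg fun e => x.2 (e ▸ h0)).symm
      · rw [Finset.sum_eq_single ⟨k, h0⟩ (fun x _ hx => if_neg fun e => hx (Subtype.ext e))
          (by simp), if_pos rfl]

end weak

end Pool.Agent.H.MP_e77664_al
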