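import Mathlib
import Pool.Agent.H.MP_e77664_al.C

namespace Pool.Agent.H.MP_e77664_al

structure Dat (E K I β : Type) [DivisionRing E] [DivisionRing K] [Module E K] where
  ι : E →+* K
  hs : ∀ e k, e • k = ι e * k
  b : Module.Basis β E K
  δ : I → E →+ K
  hδ : ∀ i e e', δ i (e * e') = δ i e * ι e' + ι e * δ i e'

variable {E K I β : Type} [DivisionRing E] [DivisionRing K] [Module E K] (D : Dat E K I β)

namespace Dat

lemma δ_one (i : I) : D.δ i 1 = 0 := by simpa using D.hδ i 1 1

lemma ind {P : K → Prop} (h0 : P 0) (ha : ∀ x y, P x → P y → P (x + y))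
    (h : ∀ e j, P (D.ι e * D.b j)) (c : K) : P c := by
  obtain ⟨v, rfl⟩ := D.b.repr.symm.surjective c
  induction v using Finsupp.induction_linear with
  | zero => simpa using h0
  | add x y hx hy => rw [map_add]; exact ha _ _ hx hy
  | single j e => simpa [D.hs] using h e j

noncomputable def ext2 {M : Type} [AddCommMonoid M] (Φ : β → E →+ M) : K →+ M :=
  (Finsupp.liftAddHom Φ).comp D.b.repr.toLinearMap.toAddMonoidHom

lemma ext2_apply {M : Type} [AddCommMonoid M] (Φ : β → E →+ M) (e : E) (j : β) :
    D.ext2 Φ (D.ι e * D.b j) = Φ j e := by simp [ext2, ← D.hs]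

abbrev W (K I β : Type) [DivisionRing K] := List (I × β) →₀ K

noncomputable def cons (a : I × β) : W K I β →ₗ[K] W K I β := Finsupp.lmapDomain K K (a :: ·)

@[simp] lemma cons_single (a : I × β) (w : List (I × β)) (k : K) :
    cons a (Finsupp.single w k) = Finsupp.single (a :: w) k := by simp [cons]

noncomputable def AP (i : I) (B : K →+ W K I β) : K →+ W K I β :=
  D.ext2 fun j => (cons (i, j)).toAddMonoidHom.comp (B.comp D.ι.toAddMonoidHom) +
    B.comp ((AddMonoidHom.mulRight (D.b j)).comp (D.δ i))

lemma AP_apply (i : I) (B : K →+ W K I β) (e : E) (j : β) :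
    D.AP i B (D.ι e * D.b j) = cons (i, j) (B (D.ι e)) + B (D.δ i e * D.b j) := by
  simp [AP, ext2_apply]

noncomputable def BB : List (I × β) → K →+ W K I β
  | [] => Finsupp.singleAddHom []
  | a :: w => (D.AP a.1 (BB w)).comp (AddMonoidHom.mulLeft (D.b a.2))

noncomputable def act (c : K) : W K I β →ₗ[K] W K I β :=
  Finsupp.linearCombination K fun w => D.BB w c

noncomputable def app (i : I) (c : K) : W K I β →ₗ[K] W K I β :=
  Finsupp.linearCombination K fun w => D.AP i (D.BB w) c

lemma lext {M : Type} [AddCommGroup M] [Module K M] {f g : W K I β →ₗ[K] M}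
    (h : ∀ w, f (Finsupp.single w 1) = g (Finsupp.single w 1)) : f = g :=
  Finsupp.lhom_ext' fun w => LinearMap.ext_ring (h w)

lemma act_add (c c' : K) : D.act (c + c') = D.act c + D.act c' := lext fun w => by simp [act]

lemma app_add (i : I) (c c' : K) : D.app i (c + c') = D.app i c + D.app i c' :=
  lext fun w => by simp [app]

lemma app_zero (i : I) : D.app i 0 = 0 := lext fun w => by simp [app]

lemma act_cons (c : K) (a : I × β) (v : W K I β) :
    D.act c (cons a v) = D.app a.1 (D.b a.2 * c) v :=
  LinearMap.congr_fun (lext (f := D.act c ∘ₗ cons a) fun w => by simp [act, app, BB]) v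

lemma app_gen (i : I) (e : E) (j : β) (v : W K I β) : D.app i (D.ι e * D.b j) v =
    cons (i, j) (D.act (D.ι e) v) + D.act (D.δ i e * D.b j) v :=
  LinearMap.congr_fun (lext (g := cons (i, j) ∘ₗ D.act (D.ι e) + D.act (D.δ i e * D.b j))
    fun w => by simp [act, app, AP_apply]) v

lemma AP_b (i : I) (B : K →+ W K I β) (j : β) : D.AP i B (D.b j) = cons (i, j) (B 1) := by
  simpa [δ_one] using D.AP_apply i B 1 j

lemma BB_one (w : List (I × β)) : D.BB w 1 = Finsupp.single w 1 := by
  induction w with
  | nil => rfl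
  | cons a w ih => simp [BB, AP_b, ih]

lemma act_one : D.act 1 = LinearMap.id := lext fun w => by simp [act, BB_one]

lemma QQ {w : List (I × β)} (h : ∀ c c', D.act c' (D.BB w c) = D.BB w (c * c')) (i : I) (e : E)
    (c : K) : D.app i c (D.BB w (D.ι e)) + D.BB w (D.δ i e * c) = D.AP i (D.BB w) (D.ι e * c) := by
  induction c using D.ind with
  | h0 => simp [app_zero]
  | ha x y hx hy => simp only [app_add, mul_add, map_add, LinearMap.add_apply, ← hx, ← hy]; abel
  | h e' j =>
    rw [app_gen, h, h, ← mul_assoc (D.ι e) (D.ι e'), ← map_mul, AP_apply, D.hδ]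
    simp only [add_mul, map_add, mul_assoc]
    abel

lemma RR {w : List (I × β)} (h : ∀ c c', D.act c' (D.BB w c) = D.BB w (c * c')) (i : I)
    (c c' : K) : D.act c' (D.AP i (D.BB w) c) = D.AP i (D.BB w) (c * c') := by
  induction c using D.ind with
  | h0 => simp
  | ha x y hx hy => simp only [add_mul, map_add, hx, hy]
  | h e j => rw [AP_apply, map_add, act_cons, h, mul_assoc, mul_assoc, D.QQ h]

lemma PP (w : List (I × β)) : ∀ c c', D.act c' (D.BB w c) = D.BB w (c * c') := by
  induction w with
  | nil =>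
    intro c c'
    simp [BB, act]
  | cons a w ih => intro c c'; simp [BB, D.RR ih, mul_assoc]

lemma act_mul (c c' : K) : D.act (c * c') = D.act c' ∘ₗ D.act c :=
  lext fun w => by
    have := D.PP w c c'
    simp only [act] at this
    simp [act, this]

lemma act_app (i : I) (c c' : K) : D.act c' ∘ₗ D.app i c = D.app i (c * c') :=
  lext fun w => by simp [app, D.RR (D.PP w)]

lemma app_act (i : I) (e : E) :
    D.app i (D.ι e) = D.app i 1 ∘ₗ D.act (D.ι e) + D.act (D.δ i e) :=
  lext fun w => by
    have := D.QQ (D.PP w) i e 1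
    simp only [mul_one] at this
    simp only [LinearMap.add_apply, LinearMap.comp_apply, act, Finsupp.linearCombination_single,
      one_smul, this]
    simp [app]

inductive Rl : FreeRing (K ⊕ I) → FreeRing (K ⊕ I) → Prop
  | add (a b : K) : Rl (.of (.inl (a + b))) (.of (.inl a) + .of (.inl b))
  | mul (a b : K) : Rl (.of (.inl (a * b))) (.of (.inl a) * .of (.inl b))
  | one : Rl (.of (.inl 1)) 1
  | com (i : I) (e : E) : Rl (.of (.inr i) * .of (.inl (D.ι e)))
      (.of (.inl (D.ι e)) * .of (.inr i) + .of (.inl (D.δ i e)))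

abbrev G := RingQuot D.Rl

noncomputable def io : K →+* D.G :=
  RingHom.mk'
    { toFun := fun a => RingQuot.mkRingHom _ (.of (.inl a))
      map_one' := (RingQuot.mkRingHom_rel Rl.one).trans (map_one _)
      map_mul' := fun a b => (RingQuot.mkRingHom_rel (Rl.mul a b)).trans (map_mul _ _ _) }
    fun a b => (RingQuot.mkRingHom_rel (Rl.add a b)).trans (map_add _ _ _)

noncomputable def s (i : I) : D.G := RingQuot.mkRingHom _ (.of (.inr i))

lemma com (i : I) (e : E) : D.s i * D.io (D.ι e) = D.io (D.ι e) * D.s i + D.io (D.δ i e) := by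
  have := RingQuot.mkRingHom_rel (Rl.com (D := D) i e)
  rw [map_add, map_mul, map_mul] at this
  exact this

lemma lift {S : Type} [Ring S] (ψ : K →+* S) (σ : I → S)
    (h : ∀ i e, σ i * ψ (D.ι e) = ψ (D.ι e) * σ i + ψ (D.δ i e)) :
    ∃ g : D.G →+* S, (∀ c, g (D.io c) = ψ c) ∧ ∀ i, g (D.s i) = σ i :=
  ⟨RingQuot.lift ⟨FreeRing.lift (Sum.elim ψ σ), fun x y hxy => by cases hxy <;> simp [h]⟩,
    fun c => (RingQuot.lift_mkRingHom_apply _ _ _).trans (FreeRing.lift_of _ _),
    fun i => (RingQuot.lift_mkRingHom_apply _ _ _).trans (FreeRing.lift_of _ _)⟩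

lemma indG {P : D.G → Prop} (h1 : ∀ c, P (D.io c)) (h2 : ∀ i, P (D.s i))
    (ha : ∀ x y, P x → P y → P (x + y)) (hm : ∀ x y, P x → P y → P (x * y)) (g : D.G) : P g := by
  obtain ⟨u, rfl⟩ := RingQuot.mkRingHom_surjective _ g
  induction u using FreeRing.induction_on with
  | hn1 => simpa using h1 (-1)
  | hb b => cases b; exacts [h1 _, h2 _]
  | ha x y hx hy => rw [map_add]; exact ha _ _ hx hy
  | hm x y hx hy => rw [map_mul]; exact hm _ _ hx hy

noncomputable def n (a : I × β) : D.G := D.s a.1 * D.io (D.b a.2)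

noncomputable def nn : List (I × β) → D.G
  | [] => 1
  | a :: w => nn w * D.n a

noncomputable def ev : W K I β →+ D.G :=
  Finsupp.liftAddHom fun w => (AddMonoidHom.mulRight (D.nn w)).comp D.io.toAddMonoidHom

@[simp] lemma ev_single (w : List (I × β)) (k : K) :
    D.ev (Finsupp.single w k) = D.io k * D.nn w := by simp [ev]

lemma ev_smul (k : K) (v : W K I β) : D.ev (k • v) = D.io k * D.ev v := by
  induction v using Finsupp.induction_linear with
  | zero => simp
  | add x y hx hy => simp only [smul_add, map_add, hx, hy, mul_add]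
  | single w c => rw [Finsupp.smul_single, ev_single, ev_single, smul_eq_mul, map_mul, mul_assoc]

lemma ev_cons (a : I × β) (v : W K I β) : D.ev (cons a v) = D.ev v * D.n a := by
  induction v using Finsupp.induction_linear <;> simp_all [add_mul, mul_assoc, nn]

lemma ev_AP {B : K →+ W K I β} {g : D.G} (h : ∀ c, D.ev (B c) = g * D.io c) (i : I) (c : K) :
    D.ev (D.AP i B c) = g * (D.s i * D.io c) := by
  induction c using D.ind with
  | h0 => simp
  | ha x y hx hy => simp only [mul_add, map_add, hx, hy]
  | h e j =>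
    rw [AP_apply, map_add, ev_cons, h, h, map_mul, map_mul, ← mul_assoc (D.s i), com, n]
    simp only [mul_add, add_mul, mul_assoc]

lemma ev_BB (w : List (I × β)) : ∀ c, D.ev (D.BB w c) = D.nn w * D.io c := by
  induction w with
  | nil => intro c; simp [BB, nn]
  | cons a w ih => intro c; simp [BB, D.ev_AP ih, nn, n, mul_assoc]

theorem wa : Nontrivial D.G ∧ ∃ d, WA d D.io D.n := by
  classical
  obtain ⟨ρ, h1, h2⟩ := D.lift (S := (Module.End K (W K I β))ᵐᵒᵖ)
    (RingHom.mk' ⟨⟨fun c => MulOpposite.op (D.act c), congrArg _ D.act_one⟩,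
      fun c c' => congrArg MulOpposite.op (D.act_mul c c')⟩
      fun c c' => congrArg MulOpposite.op (D.act_add c c')) (fun i => MulOpposite.op (D.app i 1))
    fun i e => congrArg MulOpposite.op
      ((D.act_app i 1 (D.ι e)).trans (by rw [one_mul]; exact D.app_act i e))
  have h1 : ∀ c, (ρ (D.io c)).unop = D.act c := fun c => congrArg _ (h1 c)
  have h3 : ∀ g v, D.ev ((ρ g).unop v) = D.ev v * g := fun g => by
    induction g using D.indG with
    | h1 c =>
      intro v
      induction v using Finsupp.induction_linear <;>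
        simp_all [act, add_mul, ev_smul, ev_BB, mul_assoc]
    | h2 i =>
      intro v
      induction v using Finsupp.induction_linear <;>
        simp_all [app, add_mul, ev_smul, D.ev_AP (D.ev_BB _), mul_assoc]
    | ha x y hx hy => intro v; simp [hx, hy, mul_add]
    | hm x y hx hy => intro v; simp [hx, hy, mul_assoc]
  let co : D.G →+ W K I β := AddMonoidHom.mk' (fun g => (ρ g).unop (Finsupp.single [] 1))
    fun x y => by simp
  have h4 : ∀ g, D.ev (co g) = g := fun g => by simp [co, h3, nn]
  have h5 : ∀ c, co (D.io c) = Finsupp.single [] c := fun c => by simp [co, h1, act, BB]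
  have h6 : ∀ g i c, co (g * (D.s i * D.io c)) = D.app i c (co g) := fun g i c => by
    simpa [co, h1, h2] using LinearMap.congr_fun (D.act_app i 1 c) _
  have h7 : ∀ g a, co (g * D.n a) = cons a (co g) := fun g a => by
    have := D.app_gen a.1 1 a.2 (co g)
    rw [δ_one, map_one, act_one, zero_mul, one_mul] at this
    simpa [h6, n, act, Finsupp.linearCombination_apply] using this
  let cm : I × β → W K I β →+ W K I β := fun a =>
    Finsupp.comapDomain.addMonoidHom (List.cons_injective (a := a))
  have c1 : ∀ a v w, cm a v w = v (a :: w) := fun _ _ _ => rfl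
  have c2 : ∀ a v, cm a (cons a v) = v := fun a v => Finsupp.ext fun w =>
    Finsupp.mapDomain_apply List.cons_injective _ _
  have c3 : ∀ a b v, a ≠ b → cm a (cons b v) = 0 := fun a b v h => Finsupp.ext fun w =>
    Finsupp.mapDomain_of_notMem_range _ _ (by simp [h.symm])
  have c4 : ∀ a c, cm a (Finsupp.single [] c) = 0 := fun a c => Finsupp.ext fun w => by simp [c1]
  let d : I × β → D.G →+ D.G := fun a => D.ev.comp ((cm a).comp co)
  have d1 : ∀ a g, d a (g * D.n a) = g := fun a g => by simp [d, h7, c2, h4]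
  have d2 : ∀ a b g, a ≠ b → d a (g * D.n b) = 0 := fun a b g h => by simp [d, h7, c3 _ _ _ h]
  have d3 : ∀ a c, d a (D.io c) = 0 := fun a c => by simp [d, h5, c4]
  refine ⟨⟨D.io 1, D.io 0, fun h => by
    have := congrArg co h; rw [h5, h5] at this; simp at this⟩,
    d, d1, d2, d3, fun g => ?_, fun a b c => ?_, fun g => ?_⟩
  · refine ⟨co g [], (co g).support.biUnion fun w => w.toFinset, ?_⟩
    have : co g = Finsupp.single [] (co g []) +
        ∑ a ∈ (co g).support.biUnion fun w => w.toFinset, cons a (cm a (co g)) := by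
      ext w
      rcases w with _ | ⟨a, w⟩
      · simp [cons, Finsupp.mapDomain_of_notMem_range]
      · rw [← c1 a (_ + _), map_add, c4, map_sum, zero_add, Finset.sum_eq_single a
          (fun b _ hb => c3 _ _ _ hb.symm) (fun ha => ?_), c2, c1]
        rw [c2]
        ext w'
        by_contra hc
        exact ha (Finset.mem_biUnion.2 ⟨_, Finsupp.mem_support_iff.2 hc, by simp⟩)
    conv_lhs => rw [← h4 g, this]
    simp [ev_cons, d, nn]
  · have : ∀ c, ∃ c', cm a (D.AP b.1 (D.BB []) c) = Finsupp.single [] c' := fun c => by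
      induction c using D.ind with
      | h0 => exact ⟨0, by simp⟩
      | ha x y hx hy =>
        obtain ⟨x', hx⟩ := hx; obtain ⟨y', hy⟩ := hy
        exact ⟨x' + y', by simp [hx, hy]⟩
      | h e j =>
        rw [AP_apply, map_add, show D.BB [] (_ * _) = Finsupp.single [] _ from rfl, c4, add_zero]
        by_cases h : a = (b.1, j)
        · exact ⟨D.ι e, by rw [h, c2]; rfl⟩
        · exact ⟨0, by rw [c3 _ _ _ h, Finsupp.single_zero]⟩
    obtain ⟨c', hc⟩ := this (D.b b.2 * c)
    have e := h6 (D.io 1) b.1 (D.b b.2 * c)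
    rw [h5, map_one, one_mul, map_mul D.io, ← mul_assoc] at e
    exact ⟨c', by simp [d, n, e, app, hc, nn]⟩
  · rw [← h4 g]
    induction co g using Finsupp.induction_linear with
    | zero => exact ⟨0, by simp⟩
    | add x y hx hy =>
      obtain ⟨p, hp⟩ := hx; obtain ⟨q, hq⟩ := hy
      exact ⟨p + q, by rw [map_add]; exact add_mem (lt_mono hp (by omega)) (lt_mono hq (by omega))⟩
    | single w k =>
      refine ⟨w.length + 1, ?_⟩
      rw [ev_single]
      induction w with
      | nil => exact lt_succ.2 fun a => by simp [nn, d3]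
      | cons b w ih =>
        refine lt_succ.2 fun a => ?_
        rw [nn, ← mul_assoc]
        by_cases h : a = b
        · rw [h, d1]; exact ih
        · rw [d2 _ _ _ h]; exact zero_mem _

end Dat

end Pool.Agent.H.MP_e77664_al
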