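import Mathlib
import Pool.Agent.H.MP_e77664_al.B
import Pool.Agent.H.MP_e77664_al.D

namespace Pool.Agent.H.MP_e77664_al

lemma hnn {E K : Type} [DivisionRing E] [DivisionRing K] (ι : E →+* K) (I : Type)
    (δ : I → E →+ K) (hδ : ∀ i e e', δ i (e * e') = δ i e * ι e' + ι e * δ i e') :
    ∃ (K' : Type) (_ : DivisionRing K') (φ : K →+* K') (s : I → K'),
      ∀ i e, s i * φ (ι e) = φ (ι e) * s i + φ (δ i e) := by
  let := Module.compHom K ι
  let D : Dat E K I _ := ⟨ι, fun _ _ => rfl, Module.Basis.ofVectorSpace E K, δ, hδ⟩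
  obtain ⟨_, d, hd⟩ := D.wa
  obtain ⟨L, _, f, -⟩ := univ hd.syl
  exact ⟨L, inferInstance, f.comp D.io, fun i => f (D.s i), fun i e => by
    simpa using congrArg f (D.com i e)⟩

open TrivSqZeroExt in
lemma base : ∃ (E : Type) (_ : DivisionRing E) (z : ℕ → E), ∀ (K : Type) [DivisionRing K]
    (ι : E →+* K) (η : ℕ → K), ∃ δ : E →+ K, (∀ e e', δ (e * e') = δ e * ι e' + ι e * δ e') ∧
      ∀ j, δ (z j) = η j := by
  let D : Dat (ZMod 2) (ZMod 2) ℕ Unit :=
    ⟨RingHom.id _, fun _ _ => rfl, Module.Basis.singleton _ _, 0, by simp⟩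
  obtain ⟨_, d, hd⟩ := D.wa
  obtain ⟨E, _, f, h1, h2, h3⟩ := univ hd.syl
  refine ⟨E, inferInstance, fun j => f (D.s j), fun K _ ι η => ?_⟩
  obtain ⟨g, g1, g2⟩ := D.lift ((inlHom K K).comp (ι.comp (f.comp D.io)))
    (fun j => inl (ι (f (D.s j))) + inr (η j)) fun j e => by
      obtain rfl | rfl : e = 0 ∨ e = 1 := by revert e; decide
      all_goals simp [D]
  let p : TrivSqZeroExt K K →+* K := RingHom.mk' ⟨⟨fst, rfl⟩, fst_mul⟩ fst_add
  have hp : ∀ x, p x = x.fst := fun _ => rfl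
  have p1 : ∀ b, p (g b) = ι (f b) := fun b => by
    induction b using D.indG with
    | h1 c => rw [g1]; rfl
    | h2 i => rw [g2]; simp [hp]
    | ha x y hx hy => simp only [map_add, hx, hy]
    | hm x y hx hy => simp only [map_mul, hx, hy]
  have u1 : ∀ (n : ℕ) (M : Matrix (Fin n) (Fin n) (TrivSqZeroExt K K)), p.mapMatrix M = 1 →
      IsUnit M := fun n M hM => by
    have h0 : ∀ i j, ((M - 1) i j).fst = 0 := fun i j =>
      congrFun (congrFun (show p.mapMatrix (M - 1) = 0 by rw [map_sub, hM, map_one, sub_self]) i) j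
    have : IsNilpotent (M - 1) := ⟨2, by
      ext1 i j
      rw [pow_two, Matrix.mul_apply]
      exact Finset.sum_eq_zero fun k _ => by ext <;> simp only [fst_mul, snd_mul, h0] <;> simp⟩
    simpa using this.isUnit_one_add
  obtain ⟨g', hg⟩ := h2 _ g fun n A hA => by
    obtain ⟨U, hU⟩ := (h1 n A hA).map ι.mapMatrix
    have e1 : p.mapMatrix (A.map g) = U.1 := by rw [hU]; ext i j; exact p1 _
    have e2 : p.mapMatrix (U⁻¹.1.map inl) = U⁻¹.1 := rfl
    obtain ⟨a, ha⟩ := (u1 n (A.map g * U⁻¹.1.map inl) (by simp only [map_mul, e1, e2]; simp)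
      ).exists_right_inv
    obtain ⟨b, hb⟩ := (u1 n (U⁻¹.1.map inl * A.map g) (by simp only [map_mul, e1, e2]; simp)
      ).exists_left_inv
    exact isUnit_iff_exists_and_exists.2 ⟨⟨_, (mul_assoc _ _ _).symm.trans ha⟩,
      _, (mul_assoc _ _ _).trans hb⟩
  have e : ∀ x, (g' x).fst = ι x :=
    RingHom.congr_fun (h3 _ (p.comp g') ι fun r => by rw [RingHom.comp_apply, hg, p1])
  exact ⟨AddMonoidHom.mk' (fun x => (g' x).snd) (by simp), fun x y => by simp [e, add_comm],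
    fun j => by simp [hg, g2]⟩

structure St (E : Type) [DivisionRing E] where
  K : Type
  [dr : DivisionRing K]
  ι : E →+* K

instance {E : Type} [DivisionRing E] (st : St E) : DivisionRing st.K := st.dr

def tw {E : Type} [DivisionRing E] (nx : St E → St E) : ℕ → St E
  | 0 => ⟨E, RingHom.id E⟩
  | n + 1 => nx (tw nx n)

def chain (K : ℕ → Type) [∀ n, DivisionRing (K n)] (φ : ∀ n, K n →+* K (n + 1)) (i j : ℕ)
    (h : i ≤ j) : K i →+* K j :=
  Nat.leRecOn (C := fun k => K i →+* K k) h (fun g => (φ _).comp g) (RingHom.id _)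

theorem amb : ∃ (K : Type) (_ : DivisionRing K) (z : ℕ → K) (t : K),
    (∀ j, t * z j - z j * t = z (j + 1)) ∧ ∀ (m : ℕ) (η : ℕ → K), (∀ j, m ≤ j → η j = 0) →
      ∃ s, ∀ j, s * z j - z j * s = η j := by
  obtain ⟨E, _, z, hz⟩ := base
  have nx : ∀ st : St E, ∃ (st' : St E) (φ : st.K →+* st'.K), (∀ e, φ (st.ι e) = st'.ι e) ∧
      ∀ η : ℕ → st.K, ∃ s, ∀ j, s * st'.ι (z j) - st'.ι (z j) * s = φ (η j) := fun st => by
    choose δ h1 h2 using hz st.K st.ι
    obtain ⟨K', _, φ, s, h⟩ := hnn st.ι _ δ h1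
    exact ⟨⟨K', φ.comp st.ι⟩, φ, fun _ => rfl, fun η => ⟨s η, fun j => by simp [h, h2]⟩⟩
  obtain ⟨T, φ, h1, h2⟩ : ∃ (T : ℕ → St E) (φ : ∀ n, (T n).K →+* (T (n + 1)).K),
      (∀ n e, φ n ((T n).ι e) = (T (n + 1)).ι e) ∧ ∀ n (η : ℕ → (T n).K), ∃ s, ∀ j,
        s * (T (n + 1)).ι (z j) - (T (n + 1)).ι (z j) * s = φ n (η j) := by
    choose nx φ h1 h2 using nx
    exact ⟨tw nx, fun n => φ _, fun n => h1 _, fun n => h2 _⟩
  let f := chain (fun n => (T n).K) φ
  have f0 : ∀ i, f i i le_rfl = RingHom.id _ := fun i => Nat.leRecOn_self _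
  have f1 : ∀ i j (h : i ≤ j), f i (j + 1) (h.trans j.le_succ) = (φ _).comp (f i j h) :=
    fun i j h => Nat.leRecOn_succ h _
  have : DirectedSystem (fun i => (T i).K) (f · · ·) := ⟨fun i x => by rw [f0]; rfl,
    fun k j i hij hjk x => by
      induction hjk with
      | refl => rw [f0]; rfl
      | step h ih => rw [f1 _ _ h, f1 _ _ (hij.trans h)]; exact congrArg _ ih⟩
  let o := DirectLimit.Ring.of (fun i => (T i).K) f
  have o1 : ∀ n x, o (n + 1) (φ _ x) = o n x := fun n x =>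
    (congrArg _ (by rw [f1 _ _ le_rfl, f0]; rfl)).trans (DirectLimit.Ring.of_f (f := f) n.le_succ x)
  have o2 : ∀ n e, o n ((T n).ι e) = o 0 ((T 0).ι e) := fun n e => by
    induction n with
    | zero => rfl
    | succ n ih => rw [← ih, ← o1 n, h1]
  have key : ∀ n (η : ℕ → (T n).K), ∃ s, ∀ j,
      s * o 0 ((T 0).ι (z j)) - o 0 ((T 0).ι (z j)) * s = o n (η j) := fun n η => by
    obtain ⟨s, hs⟩ := h2 _ η
    exact ⟨o (n + 1) s, fun j => by rw [← o1 n, ← hs, ← o2 (n + 1), map_sub, map_mul, map_mul]⟩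
  obtain ⟨t, ht⟩ := key 0 fun j => (T 0).ι (z (j + 1))
  refine ⟨_, inferInstance, fun j => o 0 ((T 0).ι (z j)), t, ht, fun m η hη => ?_⟩
  choose a x hx using fun j => DirectLimit.exists_eq_mk f (η j)
  obtain ⟨s, hs⟩ := key ((Finset.range m).sup a) fun j => if h : j < m then
    f _ _ (Finset.le_sup (Finset.mem_range.2 h)) (x j) else 0
  refine ⟨s, fun j => (hs j).trans ?_⟩
  split_ifs with h
  · rw [hx]; exact DirectLimit.Ring.of_f _ _
  · rw [map_zero, hη j (not_lt.1 h)]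

end Pool.Agent.H.MP_e77664_al
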