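import Mathlib
import Pool.Agent.H.MP_e77664_al.E

namespace Pool.Agent.H.MP_e77664_al

open PowerSeries

variable {K : Type} [DivisionRing K]

lemma dvd_l {n : ℕ} {a : K⟦X⟧} (b : K⟦X⟧) (h : X ^ n ∣ a) : X ^ n ∣ b * a := by
  obtain ⟨c, rfl⟩ := h
  exact ⟨b * c, by rw [← mul_assoc, (commute_X_pow b n).eq, mul_assoc]⟩

noncomputable def evS (t x : K) (S : K⟦X⟧) : FreeRing (Fin 4) →+* K⟦X⟧ :=
  FreeRing.lift ![X, C t, C x, S]

lemma evS_cont (t x : K) {S S' : K⟦X⟧} {n : ℕ} (h : X ^ n ∣ S - S') (f : FreeRing (Fin 4)) :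
    X ^ n ∣ evS t x S f - evS t x S' f := by
  induction f using FreeRing.induction_on with
  | hn1 => simp
  | hb b => fin_cases b <;> simp [evS, h]
  | ha a b ha hb => convert dvd_add ha hb using 1; simp only [map_add]; abel
  | hm a b ha hb =>
    convert dvd_add (ha.mul_right (evS t x S b)) (dvd_l (evS t x S' a) hb) using 1
    simp only [map_mul, sub_mul, mul_sub]; abel

open Classical in
noncomputable def et (j : ℕ) (a : K⟦X⟧) : K⟦X⟧ :=
  if h : ∃ c, a * c = X ^ j then X ^ (j + 1) * h.choose else 0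

lemma et_dvd (j : ℕ) (a : K⟦X⟧) : X ^ (j + 1) ∣ et j a := by
  unfold et; split_ifs <;> simp

lemma et_cont (j : ℕ) {a a' : K⟦X⟧} {n : ℕ} (h : X ^ n ∣ a - a') :
    X ^ (n + 1) ∣ et j a - et j a' := by
  by_cases hn : n ≤ j
  · exact (pow_dvd_pow X (by omega)).trans (dvd_sub (et_dvd j a) (et_dvd j a'))
  obtain ⟨m, rfl⟩ : ∃ m, n = j + (m + 1) := ⟨n - j - 1, by omega⟩
  have key : ∀ a a' : K⟦X⟧, X ^ (j + (m + 1)) ∣ a - a' → (∃ c, a' * c = X ^ j) →
      ∃ c, a * c = X ^ j := by
    rintro a a' ⟨y, hy⟩ ⟨c, hc⟩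
    obtain ⟨u, hu⟩ := (isUnit_iff_constantCoeff.2 (by simp) :
      IsUnit (1 + X ^ (m + 1) * y * c)).exists_right_inv
    refine ⟨c * u, ?_⟩
    rw [← mul_assoc, sub_eq_iff_eq_add'.1 hy, add_mul, hc, pow_add, mul_assoc, mul_assoc,
      ← mul_one_add, mul_assoc, ← mul_assoc _ y, hu, mul_one]
  unfold et
  by_cases h1 : ∃ c, a * c = X ^ j
  · have h2 := key a' a (dvd_sub_comm.1 h) h1
    rw [dif_pos h1, dif_pos h2, ← mul_sub]
    have e1 := h1.choose_spec
    have e2 := h2.choose_spec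
    generalize h1.choose = c at e1
    generalize h2.choose = c' at e2
    have e3 : c * a = X ^ j := mul_right_cancel₀ (b := c) (by
      rintro rfl; simpa using congrArg (coeff j) e1)
      (by rw [mul_assoc, e1, (commute_X_pow c j).eq])
    obtain ⟨y, hy⟩ := dvd_l c ((dvd_sub_comm.1 h).mul_right c')
    rw [sub_mul, mul_sub, e2, ← mul_assoc, e3, (commute_X_pow c j).eq, ← mul_sub, pow_add,
      mul_assoc] at hy
    exact ⟨y, by rw [X_pow_mul_cancel hy, ← mul_assoc, ← pow_add]; congr 2; omega⟩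
  · rw [dif_neg h1, dif_neg fun h2 => h1 (key a a' h h2)]; simp

lemma et_spec {a : K⟦X⟧} (ha : a ≠ 0) : ∃ d, ∀ j, d ≤ j → a * et j a = X ^ (j + 1 + j) := by
  obtain ⟨u, hu⟩ := (isUnit_iff_constantCoeff.2 (IsUnit.mk0 _
    (constantCoeff_divXPowOrder_eq_zero_iff.not.2 ha))).exists_right_inv
  refine ⟨a.order.toNat, fun j hj => ?_⟩
  have : ∃ c, a * c = X ^ j := ⟨u * X ^ (j - a.order.toNat), by
    conv_lhs => enter [1]; rw [← X_pow_order_mul_divXPowOrder (f := a)]
    rw [mul_assoc, ← mul_assoc _ u, hu, one_mul, ← pow_add]; congr 1; omega⟩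
  rw [et, dif_pos this, ← mul_assoc, (commute_X_pow a _).eq, mul_assoc, this.choose_spec, ← pow_add]

theorem ex_S : ∃ (K : Type) (_ : DivisionRing K) (φ : FreeRing (Fin 4) →+* K⟦X⟧),
    φ (.of 0) = X ∧ ∀ f, φ f ≠ 0 → ∃ g N, φ f * φ g = X ^ N := by
  obtain ⟨K, _, z, t, h1, h2⟩ := amb
  have : Countable (FreeMonoid (Fin 4)) := inferInstanceAs (Countable (List (Fin 4)))
  have : Countable (FreeRing (Fin 4)) := inferInstanceAs (Countable (FreeAbelianGroup _))
  obtain ⟨e, he⟩ := exists_surjective_nat (FreeRing (Fin 4))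
  let η : K⟦X⟧ → ℕ → K⟦X⟧ := fun S j => et j (evS t (z 0) S (e j.unpair.1))
  have h3 : ∀ (n : ℕ) (S : K⟦X⟧), ∃ s, ∀ j, s * z j - z j * s = coeff n (η S j) := fun n S =>
    h2 n _ fun j hj => X_pow_dvd_iff.1 (et_dvd _ _) _ (by omega)
  choose sol hsol using h3
  let SS : ℕ → K⟦X⟧ := fun n => Nat.rec 0 (fun n S => S + monomial n (sol n S)) n
  let S : K⟦X⟧ := mk fun n => sol n (SS n)
  have h4 : ∀ n i, coeff i (SS n) = if i < n then coeff i S else 0 := fun n i => by
    induction n with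
    | zero => simp [SS]
    | succ n ih =>
      change coeff i (SS n + monomial n (sol n (SS n))) = _
      rw [map_add, ih, coeff_monomial]
      split_ifs <;> first | omega | simp_all [S]
  have h5 : ∀ j, S * C (z j) - C (z j) * S = η S j := fun j => by
    ext n
    have := X_pow_dvd_iff.1 (et_cont j (evS_cont t (z 0) (S := S) (S' := SS n) (n := n)
      (X_pow_dvd_iff.2 fun i hi => by simp [h4, hi]) (e j.unpair.1))) n (by omega)
    rw [map_sub, sub_eq_zero] at this
    rw [map_sub, coeff_mul_C, coeff_C_mul, coeff_mk, hsol, this]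
  have h6 : ∀ j, ∃ g, evS t (z 0) S g = C (z j) := fun j => by
    induction j with
    | zero => exact ⟨.of 2, by simp [evS]⟩
    | succ j ih =>
      obtain ⟨g, hg⟩ := ih
      exact ⟨.of 1 * g - g * .of 1, by rw [map_sub, map_mul, map_mul, hg]; simp [← h1, evS]⟩
  refine ⟨K, inferInstance, evS t (z 0) S, by simp [evS], fun f hf => ?_⟩
  obtain ⟨d, hd⟩ := et_spec hf
  obtain ⟨i, rfl⟩ := he f
  obtain ⟨g, hg⟩ := h6 (i.pair d)
  have := hd _ (Nat.right_le_pair i d)
  refine ⟨.of 3 * g - g * .of 3, _, (congrArg _ ?_).trans this⟩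
  rw [map_sub, map_mul, map_mul, hg]
  simpa [η, evS] using h5 (i.pair d)

theorem final : ∃ (D : Type) (_ : DivisionRing D), Infinite D ∧
    ∃ s : Finset D, Subring.closure (s : Set D) = ⊤ := by
  classical
  obtain ⟨K, _, φ, h1, h2⟩ := ex_S
  let o := HahnSeries.ofPowerSeries ℤ K
  let g : Option (Fin 4) → HahnSeries ℤ K := fun i =>
    i.elim (HahnSeries.single (-1) 1) fun i => o (φ (.of i))
  let ψ : FreeRing (Option (Fin 4)) →+* HahnSeries ℤ K := FreeRing.lift g
  have hX : ∀ n : ℕ, o (X ^ n) = HahnSeries.single (n : ℤ) 1 := HahnSeries.ofPowerSeries_X_pow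
  have a1 : ∀ f, o (φ f) ∈ ψ.range := fun f => ⟨FreeRing.map some f, by
    induction f using FreeRing.induction_on <;> simp_all [ψ, g]⟩
  have a2 : ∀ n : ℕ, HahnSeries.single (-n : ℤ) (1 : K) ∈ ψ.range := fun n => by
    simpa [ψ, g, HahnSeries.single_pow] using pow_mem (ψ.mem_range_self (.of none)) n
  have a3 : ∀ u, Commute (ψ u) (o X) := fun u => by
    induction u using FreeRing.induction_on with
    | hn1 => simp
    | hb b =>
      cases b
      · have := hX 1
        simp only [pow_one] at this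
        simp [ψ, g, this, Commute, SemiconjBy, HahnSeries.single_mul_single]
      · simpa [ψ, g] using (commute_X _).map o
    | ha a b ha hb => rw [map_add]; exact ha.add_left hb
    | hm a b ha hb => rw [map_mul]; exact ha.mul_left hb
  have a4 : ∀ u, ∃ (n : ℕ) (f : FreeRing (Fin 4)), ψ u * o X ^ n = o (φ f) := fun u => by
    induction u using FreeRing.induction_on with
    | hn1 => exact ⟨0, -1, by simp⟩
    | hb b =>
      rcases b with _ | b
      · exact ⟨1, 1, by rw [← map_pow, hX]; simp [ψ, g, HahnSeries.single_mul_single]⟩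
      · exact ⟨0, .of b, by simp [ψ, g]⟩
    | ha a b ha hb =>
      obtain ⟨n, f, hf⟩ := ha
      obtain ⟨m, f', hf'⟩ := hb
      exact ⟨n + m, f * .of 0 ^ m + f' * .of 0 ^ n, by
        simp only [map_add, map_mul, map_pow, h1, ← hf, ← hf', add_mul, mul_assoc, ← pow_add,
          add_comm]⟩
    | hm a b ha hb =>
      obtain ⟨n, f, hf⟩ := ha
      obtain ⟨m, f', hf'⟩ := hb
      exact ⟨n + m, f * f', by
        rw [map_mul, map_mul, map_mul, ← hf, ← hf', pow_add, mul_assoc, mul_assoc,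
          ← mul_assoc (ψ b), ((a3 b).pow_right n).eq, mul_assoc]⟩
  have hr : ∀ u : ψ.range, u ≠ 0 → ∃ v, u * v = 1 := by
    rintro ⟨_, u, rfl⟩ hu
    obtain ⟨n, f, hf⟩ := a4 u
    rw [← map_pow] at hf
    obtain ⟨f', N, h⟩ := h2 f fun h0 => hu (Subtype.ext (by
      have := congrArg (· * HahnSeries.single (-n : ℤ) 1) hf
      simpa [h0, hX, mul_assoc, HahnSeries.single_mul_single] using this))
    have := a1 (FreeRing.of 0 ^ n)
    rw [map_pow, h1] at this
    refine ⟨⟨_, mul_mem (mul_mem this (a1 f')) (a2 N)⟩, Subtype.ext ?_⟩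
    change ψ u * (o (X ^ n) * o (φ f') * _) = 1
    rw [← mul_assoc, ← mul_assoc, hf, ← map_mul, h, hX]
    simp [HahnSeries.single_mul_single]
  refine ⟨ψ.range, DivisionRing.ofIsUnitOrEqZero fun u => ?_, ?_,
    Finset.univ.image fun i => ψ.rangeRestrict (.of i), ?_⟩
  · refine or_iff_not_imp_right.2 fun hu => ?_
    obtain ⟨v, hv⟩ := hr u hu
    obtain ⟨w, hw⟩ := hr v (right_ne_zero_of_mul_eq_one hv)
    obtain rfl := left_inv_eq_right_inv hv hw
    exact ⟨⟨u, v, hv, hw⟩, rfl⟩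
  · refine Infinite.of_injective (fun n : ℕ => (⟨_, a2 n⟩ : ψ.range)) fun n m h => ?_
    have := congrArg (fun u : ψ.range => u.1.coeff (-n)) h
    simp only [HahnSeries.coeff_single_same] at this
    by_contra hc
    rw [HahnSeries.coeff_single_of_ne (by omega)] at this
    exact one_ne_zero this
  · refine eq_top_iff.2 fun u _ => ?_
    obtain ⟨u, rfl⟩ := ψ.rangeRestrict_surjective u
    induction u using FreeRing.induction_on with
    | hn1 => simp
    | hb b => exact Subring.subset_closure (by simp)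
    | ha a b ha hb => rw [map_add]; exact add_mem (ha trivial) (hb trivial)
    | hm a b ha hb => rw [map_mul]; exact mul_mem (ha trivial) (hb trivial)

end Pool.Agent.H.MP_e77664_al
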